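import Pool.Agent.N534.XH.Slut

/-!
# The normal law with the bad primes left out
-/

set_option autoImplicit false
set_option linter.unusedSectionVars false

namespace Pool.Agent.N534.XH

open Finset Filter Topology Pool.Agent.Y722.HS Pool.Agent.X280.BP Pool.Agent.X280.HG MeasureTheory ProbabilityTheory

variable {ι : Type} [Fintype ι] [DecidableEq ι]

theorem young {b r : ℝ} (hb : 1 ≤ b) (x ind : ℝ) (h0 : 0 ≤ ind) (h1 : ind ≤ 1) :
    ind * (|x| + r) ≤ ind * (b + r) + x ^ 4 / b ^ 3 := by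
  have hb0 : 0 < b := by linarith
  have h4 : 0 ≤ x ^ 4 / b ^ 3 := by positivity
  by_cases h : |x| ≤ b
  · have : ind * (|x| + r) ≤ ind * (b + r) := by gcongr
    linarith
  · push Not at h
    have h5 : |x| ≤ x ^ 4 / b ^ 3 := by
      rw [le_div_iff₀ (by positivity)]
      have e : x ^ 4 = |x| * |x| ^ 3 := by
        rw [← abs_of_nonneg (show 0 ≤ x ^ 4 by positivity), abs_pow]
        ring
      rw [e]
      gcongr
    have h6 : ind * |x| ≤ |x| := mul_le_of_le_one_left (abs_nonneg _) h1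
    have h7 : ind * (|x| + r) = ind * |x| + ind * r := by ring
    have h8 : ind * (b + r) = ind * b + ind * r := by ring
    have h9 : 0 ≤ ind * b := by positivity
    linarith

open Classical in
/-- The indicator of the bad residues. -/
noncomputable def ib (G : ∀ p : ℕ, (ι → ZMod p) → Prop) (p : ℕ) (c : ι → ZMod p) : ℝ :=
  if G p c then 0 else 1

theorem ib_nonneg (G : ∀ p : ℕ, (ι → ZMod p) → Prop) (p : ℕ) (c : ι → ZMod p) : 0 ≤ ib G p c := by
  unfold ib; split_ifs <;> norm_num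

theorem ib_le (G : ∀ p : ℕ, (ι → ZMod p) → Prop) (p : ℕ) (c : ι → ZMod p) : ib G p c ≤ 1 := by
  unfold ib; split_ifs <;> norm_num

theorem EM_ib_set (E : ∀ p : ℕ, Set (ι → ZMod p)) (D : ℝ) (p : ℕ) [NeZero p]
    (h : ((E p).ncard : ℝ) * p ≤ D * (p : ℝ) ^ Fintype.card ι) :
    EM p (ib (fun p x => x ∉ E p) p) ≤ D / p := by
  classical
  have hp0 : (0 : ℝ) < p := by exact_mod_cast Nat.pos_of_ne_zero (NeZero.ne p)
  have h1 : ∀ x : ι → ZMod p, ib (fun p x => x ∉ E p) p x = if x ∈ E p then 1 else 0 := by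
    intro x
    unfold ib
    by_cases hx : x ∈ E p
    · rw [if_neg (not_not.2 hx), if_pos hx]
    · rw [if_pos hx, if_neg hx]
  have h2 : ∑ x : ι → ZMod p, ib (fun p x => x ∉ E p) p x = ((E p).ncard : ℝ) := by
    rw [Finset.sum_congr rfl fun x _ => h1 x, Finset.sum_boole, Set.ncard_eq_toFinset_card']
    congr 2
    ext x
    simp
  unfold EM
  rw [h2, div_le_div_iff₀ (by positivity) hp0]
  exact h

variable {U : ∀ p : ℕ, (ι → ZMod p) → ℝ} {μ μ2 C : ℝ}

theorem EB_bad (h : LD U μ μ2 C) (G : ∀ p : ℕ, (ι → ZMod p) → Prop) {D : ℝ}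
    (hG : ∀ p : ℕ, p.Prime → ∀ [NeZero p], EM p (ib G p) ≤ D / p) (a : ℝ) (p H : ℕ)
    (hp : p.Prime) (hpH : p ≤ 2 * H + 1) :
    EB H (fun c => ib G p (red p c) * |a - U p (red p c)|) ≤
      2 ^ Fintype.card ι * ((D * (1 + |a|) + C) * (1 / q4 p ^ 3)) := by
  have : NeZero p := ⟨hp.ne_zero⟩
  have hb := q4_one hp.one_lt.le
  have hb0 : 0 < q4 p := by linarith
  have hp0 : (0 : ℝ) < p := by exact_mod_cast hp.pos
  refine (EB_le H p hpH (fun c => ib G p c * |a - U p c|) (fun c =>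
    mul_nonneg (ib_nonneg G p c) (abs_nonneg _))).trans ?_
  refine mul_le_mul_of_nonneg_left ?_ (by positivity)
  have h1 : EM p (fun c => ib G p c * |a - U p c|) ≤
      EM p (fun c => (q4 p + |a|) * ib G p c + 1 / q4 p ^ 3 * U p c ^ 4) := by
    refine EM_mono' p _ _ fun c => ?_
    have h2 : |a - U p c| ≤ |U p c| + |a| := by
      rw [abs_sub_comm]
      exact (abs_sub _ _)
    calc ib G p c * |a - U p c| ≤ ib G p c * (|U p c| + |a|) := by
          exact mul_le_mul_of_nonneg_left h2 (ib_nonneg G p c)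
      _ ≤ ib G p c * (q4 p + |a|) + U p c ^ 4 / q4 p ^ 3 :=
          young hb _ _ (ib_nonneg G p c) (ib_le G p c)
      _ = _ := by ring
  have h3 : EM p (fun c => (q4 p + |a|) * ib G p c + 1 / q4 p ^ 3 * U p c ^ 4) =
      (q4 p + |a|) * EM p (ib G p) + 1 / q4 p ^ 3 * EM p (fun c => U p c ^ 4) := by
    rw [EM_add', EM_mul', EM_mul']
  have h4 := h.m4 p hp
  have h5 := hG p hp
  have hD0 : 0 ≤ D := by
    have h6 : 0 ≤ EM p (ib G p) := by
      unfold EM
      have : 0 ≤ ∑ c, ib G p c := Finset.sum_nonneg fun c _ => ib_nonneg G p c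
      positivity
    have h7 : 0 ≤ D / p := h6.trans h5
    by_contra h8
    push Not at h8
    have : D / p < 0 := div_neg_of_neg_of_pos h8 hp0
    linarith
  have e4 := q4_pow p
  calc _ ≤ _ := h1
    _ = _ := h3
    _ ≤ (q4 p + |a|) * (D / p) + 1 / q4 p ^ 3 * C := by gcongr
    _ ≤ (D * (1 + |a|) + C) * (1 / q4 p ^ 3) := by
      rw [← e4]
      have e5 : (q4 p + |a|) * (D / q4 p ^ 4) ≤ D * (1 + |a|) * (1 / q4 p ^ 3) := by
        have e6 : (q4 p + |a|) * (D / q4 p ^ 4) = D * (1 + |a| / q4 p) * (1 / q4 p ^ 3) := by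
          field_simp
        rw [e6]
        have e7 : |a| / q4 p ≤ |a| := div_le_self (abs_nonneg _) hb
        gcongr
      linarith

open Classical in
/-- **The normal law with the bad primes left out.** -/
theorem good_law (h : LD U μ μ2 C) (hv : 0 < μ2 - μ ^ 2) (G : ∀ p : ℕ, (ι → ZMod p) → Prop) {D : ℝ}
    (hG : ∀ p : ℕ, p.Prime → ∀ [NeZero p], EM p (ib G p) ≤ D / p) (a : ℝ)
    {δ : ℝ} (hδ : 0 < δ) (u : ℝ) {ε : ℝ} (hε : 0 < ε) :
    ∃ K : ℕ, ∀ (P : Finset ℕ) (w : ℕ → ℝ) (y H : ℕ), (∀ p ∈ P, p.Prime ∧ p ≤ y) →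
      (∀ p ∈ P, |w p| ≤ 1) → δ * P.card ≤ ∑ p ∈ P, w p ^ 2 → K ≤ P.card → y ^ K ≤ H →
      |({c : ι → ℤ | (∀ i, |c i| ≤ H) ∧
        ∑ p ∈ P, w p * (if G p (red p c) then U p (red p c) else a) ≤
          μ * ∑ p ∈ P, w p + u * √((μ2 - μ ^ 2) * ∑ p ∈ P, w p ^ 2)}.ncard : ℝ) /
        (2 * H + 1 : ℝ) ^ Fintype.card ι - (gaussianReal 0 1).real (Set.Iic u)| ≤ ε := by
  obtain ⟨v, hvd⟩ : ∃ v : ℝ, μ2 - μ ^ 2 = v := ⟨_, rfl⟩
  have hlaw := fun u' => abs_law h hv hδ u' (show (0 : ℝ) < ε / 4 by linarith)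
  rw [hvd] at hv ⊢
  simp only [hvd] at hlaw
  set η : ℝ := ε / 4 with hη
  have hη0 : 0 < η := by linarith
  obtain ⟨K1, hK1⟩ := hlaw (u - η)
  obtain ⟨K2, hK2⟩ := hlaw (u + η)
  have hC := h.C0
  -- the constants
  have hD0 : 0 ≤ D := by
    have : NeZero (2 : ℕ) := ⟨by norm_num⟩
    have h5 := hG 2 Nat.prime_two
    have h6 : 0 ≤ EM 2 (ib G 2) := by
      unfold EM
      have : 0 ≤ ∑ c, ib G 2 c := Finset.sum_nonneg fun c _ => ib_nonneg G 2 c
      positivity
    have h7 : 0 ≤ D / (2 : ℕ) := h6.trans h5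
    push_cast at h7
    linarith
  set E : ℝ := 2 ^ Fintype.card ι * (D * (1 + |a|) + C) with hE
  have hE0 : 0 ≤ E := by positivity
  set κ : ℝ := √(v * δ) with hκ
  have hκ0 : 0 < κ := Real.sqrt_pos.2 (by positivity)
  obtain ⟨K3, hK3⟩ := exists_nat_ge ((E * 5 / (κ * (η * η))) ^ 4)
  refine ⟨max (max K1 K2) (max K3 1), fun P w y H hP hw hvar hcard hH => ?_⟩
  have hc1 : 1 ≤ P.card := (le_max_right _ _).trans ((le_max_right _ _).trans hcard)
  have hc3 : K3 ≤ P.card := (le_max_left _ _).trans ((le_max_right _ _).trans hcard)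
  have hcK1 : K1 ≤ P.card := (le_max_left _ _).trans ((le_max_left _ _).trans hcard)
  have hcK2 : K2 ≤ P.card := (le_max_right _ _).trans ((le_max_left _ _).trans hcard)
  have hy1 : 1 ≤ y := by
    obtain ⟨p, hp⟩ : P.Nonempty := by rw [← Finset.card_pos]; omega
    have h1 := (hP p hp).2
    have h2 := (hP p hp).1.pos
    omega
  have hyH : y ≤ H := by
    refine le_trans ?_ hH
    calc y = y ^ 1 := (pow_one y).symm
      _ ≤ y ^ (max (max K1 K2) (max K3 1)) := Nat.pow_le_pow_right hy1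
          ((le_max_right _ _).trans (le_max_right _ _))
  have hH1 : y ^ K1 ≤ H := (Nat.pow_le_pow_right hy1 ((le_max_left _ _).trans (le_max_left _ _))).trans hH
  have hH2 : y ^ K2 ≤ H := (Nat.pow_le_pow_right hy1 ((le_max_right _ _).trans (le_max_left _ _))).trans hH
  set W : ℝ := ∑ p ∈ P, w p ^ 2 with hW
  have hN0 : (0 : ℝ) < P.card := by exact_mod_cast hc1
  have hW0 : 0 < W := by
    have h2 : 0 < δ * P.card := by positivity
    linarith
  set σ : ℝ := √(v * W) with hσ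
  have hσ0 : 0 < σ := Real.sqrt_pos.2 (mul_pos hv hW0)
  have hσ1 : κ * q4 P.card ^ 2 ≤ σ := by
    have e1 : q4 P.card ^ 2 = √(P.card : ℝ) := by
      unfold q4
      rw [Real.sq_sqrt (Real.sqrt_nonneg _)]
    rw [e1, hκ, hσ, ← Real.sqrt_mul (by positivity)]
    refine Real.sqrt_le_sqrt ?_
    calc v * δ * P.card = v * (δ * P.card) := by ring
      _ ≤ v * W := by gcongr
  set X : (ι → ℤ) → ℝ := fun c => (∑ p ∈ P, w p * (U p (red p c) - μ)) / σ with hX
  set Y : (ι → ℤ) → ℝ := fun c =>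
    (∑ p ∈ P, w p * ((if G p (red p c) then U p (red p c) else a) - μ)) / σ with hY
  have a1 := hK1 P w y H hP hw hvar hcK1 hH1
  have a2 := hK2 P w y H hP hw hvar hcK2 hH2
  rw [← df_law] at a1 a2
  have hq := q4_pos hc1
  -- the difference
  have hdiff : EB H (fun c => |Y c - X c|) ≤ η * η := by
    have s1 : ∀ c, |Y c - X c| ≤ 1 / σ * ∑ p ∈ P, ib G p (red p c) * |a - U p (red p c)| := by
      intro c
      have e1 : Y c - X c = (∑ p ∈ P, w p * (ib G p (red p c) * (a - U p (red p c)))) / σ := by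
        rw [hY, hX]
        simp only
        rw [← sub_div, ← Finset.sum_sub_distrib]
        congr 1
        refine Finset.sum_congr rfl fun p _ => ?_
        unfold ib
        split_ifs <;> ring
      rw [e1, abs_div, abs_of_pos hσ0, div_eq_mul_one_div, mul_comm]
      refine mul_le_mul_of_nonneg_left ?_ (by positivity)
      refine (Finset.abs_sum_le_sum_abs _ _).trans (Finset.sum_le_sum fun p hp => ?_)
      rw [abs_mul, abs_mul, abs_of_nonneg (ib_nonneg G p _)]
      have h3 : 0 ≤ ib G p (red p c) * |a - U p (red p c)| := mul_nonneg (ib_nonneg G p _) (abs_nonneg _)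
      exact mul_le_of_le_one_left h3 (hw p hp)
    have s2 : EB H (fun c => |Y c - X c|) ≤
        1 / σ * ∑ p ∈ P, EB H (fun c => ib G p (red p c) * |a - U p (red p c)|) := by
      refine (EB_mono H _ _ s1).trans (le_of_eq ?_)
      rw [EB_mul_left, EB_sum]
    have s3 : ∑ p ∈ P, EB H (fun c => ib G p (red p c) * |a - U p (red p c)|) ≤ E * (5 * q4 P.card) := by
      calc _ ≤ ∑ p ∈ P, E * (1 / q4 p ^ 3) := by
            refine Finset.sum_le_sum fun p hp => ?_
            have h3 := EB_bad h G hG a p H (hP p hp).1 (by have := (hP p hp).2; omega)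
            rw [hE]
            linarith
        _ = E * ∑ p ∈ P, 1 / q4 p ^ 3 := by rw [Finset.mul_sum]
        _ ≤ E * (5 * q4 P.card) := by
            have := sum_q4_set P (fun p hp => (hP p hp).1.one_lt.le)
            gcongr
    have s4 : 1 / σ * (E * (5 * q4 P.card)) ≤ η * η := by
      have t1 : E * 5 / (κ * (η * η)) ≤ q4 P.card := by
        have t2 : (E * 5 / (κ * (η * η))) ^ 4 ≤ q4 P.card ^ 4 := by
          rw [q4_pow]
          exact hK3.trans (by exact_mod_cast hc3)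
        exact le_of_pow_le_pow_left₀ (by norm_num) hq.le t2
      rw [div_le_iff₀ (by positivity)] at t1
      rw [one_div, inv_mul_le_iff₀ hσ0]
      calc E * (5 * q4 P.card) = E * 5 * q4 P.card := by ring
        _ ≤ q4 P.card * (κ * (η * η)) * q4 P.card := by gcongr
        _ = κ * q4 P.card ^ 2 * (η * η) := by ring
        _ ≤ σ * (η * η) := by gcongr
    calc _ ≤ _ := s2
      _ ≤ 1 / σ * (E * (5 * q4 P.card)) := by gcongr
      _ ≤ _ := s4
  have hfin := slutsky H X Y u hη0 (ε := η) a1 a2 hdiff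
  have e : {c : ι → ℤ | (∀ i, |c i| ≤ H) ∧
        ∑ p ∈ P, w p * (if G p (red p c) then U p (red p c) else a) ≤
          μ * ∑ p ∈ P, w p + u * σ} = {c : ι → ℤ | (∀ i, |c i| ≤ H) ∧ Y c ≤ u} := by
    ext c
    simp only [Set.mem_ofPred_eq]
    refine and_congr_right fun _ => ?_
    rw [hY]
    simp only
    rw [div_le_iff₀ hσ0]
    have e1 : ∑ p ∈ P, w p * ((if G p (red p c) then U p (red p c) else a) - μ) =
        ∑ p ∈ P, w p * (if G p (red p c) then U p (red p c) else a) - μ * ∑ p ∈ P, w p := by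
      rw [Finset.mul_sum, ← Finset.sum_sub_distrib]
      refine Finset.sum_congr rfl fun p _ => ?_
      ring
    rw [e1]
    constructor <;> intro h <;> linarith
  rw [e]
  change |df H Y u - Ph u| ≤ ε
  linarith

end Pool.Agent.N534.XH
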