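import Pool.Agent.X280.HG.Main
import Pool.Agent.X280.BP.GaussFam

/-!
# Small changes of a normal law, and sums over the good primes
-/

set_option autoImplicit false
set_option linter.unusedSectionVars false

namespace Pool.Agent.N534.XH

open Finset Filter Topology Pool.Agent.Y722.HS Pool.Agent.X280.BP Pool.Agent.X280.HG MeasureTheory ProbabilityTheory

variable {ι : Type} [Fintype ι] [DecidableEq ι]

/-- The distribution function of a function on the box. -/
noncomputable def df (H : ℕ) (X : (ι → ℤ) → ℝ) (u : ℝ) : ℝ :=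
  ({c : ι → ℤ | (∀ i, |c i| ≤ H) ∧ X c ≤ u}.ncard : ℝ) / (2 * H + 1 : ℝ) ^ Fintype.card ι

/-- The normal distribution function. -/
noncomputable def Ph (u : ℝ) : ℝ := (gaussianReal 0 1).real (Set.Iic u)

theorem df_eq (H : ℕ) (X : (ι → ℤ) → ℝ) (u : ℝ) :
    df H X u = EB H (fun c => if X c ≤ u then (1 : ℝ) else 0) := by
  classical
  unfold df EB
  rw [ncard_box, Finset.card_filter]
  push_cast
  rfl

theorem df_law (H : ℕ) (X : (ι → ℤ) → ℝ) (u : ℝ) : df H X u = (law H X).real (Set.Iic u) := by
  classical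
  rw [measureReal_def, law_apply H _ _ measurableSet_Iic, ENNReal.toReal_ofReal (by positivity)]
  unfold df
  rw [ncard_box]
  rfl

theorem Ph_mono {u v : ℝ} (h : u ≤ v) : Ph u ≤ Ph v :=
  measureReal_mono (Set.Iic_subset_Iic.2 h)

theorem Ph_lip (u : ℝ) {η : ℝ} (hη : 0 ≤ η) : Ph (u + η) ≤ Ph u + η := by
  have h1 : Set.Iic (u + η) = Set.Iic u ∪ Set.Ioc u (u + η) := (Set.Iic_union_Ioc_eq_Iic (by linarith)).symm
  have h2 : (gaussianReal 0 1).real (Set.Ioc u (u + η)) ≤ η := by
    rw [measureReal_def]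
    have h3 : gaussianReal 0 1 (Set.Ioc u (u + η)) ≤ volume (Set.Ioc u (u + η)) := by
      rw [gaussianReal_apply 0 (by norm_num)]
      calc ∫⁻ x in Set.Ioc u (u + η), gaussianPDF 0 1 x ≤ ∫⁻ _x in Set.Ioc u (u + η), 1 := by
            refine lintegral_mono fun x => ?_
            unfold gaussianPDF
            rw [← ENNReal.ofReal_one]
            refine ENNReal.ofReal_le_ofReal ?_
            unfold gaussianPDFReal
            have h4 : (1 : ℝ) ≤ √(2 * Real.pi * ((1 : NNReal) : ℝ)) := by
              rw [Real.one_le_sqrt]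
              have := Real.pi_gt_three
              push_cast
              nlinarith
            have h5 : (√(2 * Real.pi * ((1 : NNReal) : ℝ)))⁻¹ ≤ 1 := inv_le_one_of_one_le₀ h4
            have h6 : Real.exp (-(x - 0) ^ 2 / (2 * ((1 : NNReal) : ℝ))) ≤ 1 := by
              rw [Real.exp_le_one_iff]
              apply div_nonpos_of_nonpos_of_nonneg
              · nlinarith [sq_nonneg (x - 0)]
              · positivity
            calc _ ≤ 1 * 1 := mul_le_mul h5 h6 (Real.exp_pos _).le (by norm_num)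
              _ = 1 := one_mul 1
        _ = volume (Set.Ioc u (u + η)) := by simp
    refine (ENNReal.toReal_mono (by simp) h3).trans ?_
    rw [Real.volume_Ioc]
    rw [ENNReal.toReal_ofReal (by linarith)]
    linarith
  unfold Ph
  rw [h1]
  exact (measureReal_union_le _ _).trans (by linarith)

/-- A small change of a function whose law is close to the normal law. -/
theorem slutsky (H : ℕ) (X Y : (ι → ℤ) → ℝ) (u : ℝ) {η ε : ℝ} (hη : 0 < η)
    (h1 : |df H X (u - η) - Ph (u - η)| ≤ ε) (h2 : |df H X (u + η) - Ph (u + η)| ≤ ε)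
    (h3 : EB H (fun c => |Y c - X c|) ≤ η * ε) : |df H Y u - Ph u| ≤ 2 * ε + η := by
  have hA : EB H (fun c => |Y c - X c| / η) ≤ ε := by
    have e : EB H (fun c => |Y c - X c| / η) = 1 / η * EB H (fun c => |Y c - X c|) := by
      rw [← EB_mul_left]
      congr 1
      funext c
      ring
    rw [e, div_mul_eq_mul_div, one_mul, div_le_iff₀ hη]
    linarith
  have hup : df H Y u ≤ df H X (u + η) + ε := by
    have : df H Y u ≤ EB H (fun c => (if X c ≤ u + η then (1 : ℝ) else 0) + |Y c - X c| / η) := by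
      rw [df_eq]
      refine EB_mono H _ _ fun c => ?_
      have h5 : 0 ≤ |Y c - X c| / η := by positivity
      by_cases h6 : Y c ≤ u
      · rw [if_pos h6]
        by_cases h7 : X c ≤ u + η
        · rw [if_pos h7]; linarith
        · rw [if_neg h7]
          push Not at h7
          have h8 : 1 ≤ |Y c - X c| / η := by
            rw [le_div_iff₀ hη, one_mul, abs_sub_comm]
            exact le_trans (by linarith) (le_abs_self _)
          linarith
      · rw [if_neg h6]
        split_ifs <;> linarith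
    have e : EB H (fun c => (if X c ≤ u + η then (1 : ℝ) else 0) + |Y c - X c| / η) =
        df H X (u + η) + EB H (fun c => |Y c - X c| / η) := by
      rw [df_eq]
      unfold EB
      rw [Finset.sum_add_distrib, add_div]
    linarith
  have hlow : df H X (u - η) ≤ df H Y u + ε := by
    have : df H X (u - η) ≤ EB H (fun c => (if Y c ≤ u then (1 : ℝ) else 0) + |Y c - X c| / η) := by
      rw [df_eq]
      refine EB_mono H _ _ fun c => ?_
      have h5 : 0 ≤ |Y c - X c| / η := by positivity
      by_cases h6 : X c ≤ u - η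
      · rw [if_pos h6]
        by_cases h7 : Y c ≤ u
        · rw [if_pos h7]; linarith
        · rw [if_neg h7]
          push Not at h7
          have h8 : 1 ≤ |Y c - X c| / η := by
            rw [le_div_iff₀ hη, one_mul]
            exact le_trans (by linarith) (le_abs_self _)
          linarith
      · rw [if_neg h6]
        split_ifs <;> linarith
    have e : EB H (fun c => (if Y c ≤ u then (1 : ℝ) else 0) + |Y c - X c| / η) =
        df H Y u + EB H (fun c => |Y c - X c| / η) := by
      rw [df_eq]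
      unfold EB
      rw [Finset.sum_add_distrib, add_div]
    linarith
  have h5 := Ph_lip u hη.le
  have h6 := Ph_lip (u - η) hη.le
  rw [sub_add_cancel] at h6
  rw [abs_le] at h1 h2 ⊢
  constructor <;> linarith [h1.1, h1.2, h2.1, h2.2]

/-- The fourth root. -/
noncomputable def q4 (n : ℕ) : ℝ := √√(n : ℝ)

theorem q4_pow (n : ℕ) : q4 n ^ 4 = n := by
  unfold q4
  rw [show (√√(n : ℝ)) ^ 4 = ((√√(n : ℝ)) ^ 2) ^ 2 by ring, Real.sq_sqrt (Real.sqrt_nonneg _), Real.sq_sqrt (by positivity)]

theorem q4_nonneg (n : ℕ) : 0 ≤ q4 n := Real.sqrt_nonneg _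

theorem q4_mono {m n : ℕ} (h : m ≤ n) : q4 m ≤ q4 n := by
  unfold q4
  exact Real.sqrt_le_sqrt (Real.sqrt_le_sqrt (by exact_mod_cast h))

theorem q4_pos {n : ℕ} (h : 1 ≤ n) : 0 < q4 n := by
  have : (0 : ℝ) < n := by exact_mod_cast h
  unfold q4
  exact Real.sqrt_pos.2 (Real.sqrt_pos.2 this)

theorem q4_one {n : ℕ} (h : 1 ≤ n) : 1 ≤ q4 n := by
  unfold q4
  rw [Real.one_le_sqrt, Real.one_le_sqrt]
  exact_mod_cast h

theorem sum_q4 (n : ℕ) : ∑ k ∈ Finset.Icc 1 n, 1 / q4 k ^ 3 ≤ 4 * q4 n := by
  induction n with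
  | zero =>
    simp [q4]
  | succ n ih =>
    rw [Finset.sum_Icc_succ_top (by omega)]
    have hb := q4_pos (n := n + 1) (by omega)
    have ha := q4_nonneg n
    have hab := q4_mono (Nat.le_succ n)
    have e1 := q4_pow (n + 1)
    have e2 := q4_pow n
    push_cast at e1
    set b := q4 (n + 1) with hbdef
    set a := q4 n with hadef
    have h1 : (b - a) * (b ^ 3 + b ^ 2 * a + b * a ^ 2 + a ^ 3) = 1 := by
      have : (b - a) * (b ^ 3 + b ^ 2 * a + b * a ^ 2 + a ^ 3) = b ^ 4 - a ^ 4 := by ring
      rw [this, e1, e2]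
      ring
    have h2 : b ^ 3 + b ^ 2 * a + b * a ^ 2 + a ^ 3 ≤ 4 * b ^ 3 := by
      have i1 : b ^ 2 * a ≤ b ^ 2 * b := by gcongr
      have i2 : b * a ^ 2 ≤ b * b ^ 2 := by gcongr
      have i3 : a ^ 3 ≤ b ^ 3 := by gcongr
      nlinarith
    have h3 : 1 / b ^ 3 ≤ 4 * (b - a) := by
      rw [div_le_iff₀ (by positivity)]
      have h4 : 0 ≤ b - a := by linarith
      calc 1 = (b - a) * (b ^ 3 + b ^ 2 * a + b * a ^ 2 + a ^ 3) := h1.symm
        _ ≤ (b - a) * (4 * b ^ 3) := mul_le_mul_of_nonneg_left h2 h4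
        _ = 4 * (b - a) * b ^ 3 := by ring
    linarith

/-- The sum of `p^{-3/4}` over a set of `N` natural numbers is at most `5 N^{1/4}`. -/
theorem sum_q4_set (P : Finset ℕ) (hP : ∀ p ∈ P, 1 ≤ p) :
    ∑ p ∈ P, 1 / q4 p ^ 3 ≤ 5 * q4 P.card := by
  classical
  rcases Nat.eq_zero_or_pos P.card with h0 | h0
  · rw [Finset.card_eq_zero] at h0
    rw [h0]
    simp [q4]
  · set n := P.card with hn
    rw [← Finset.sum_filter_add_sum_filter_not P (fun p => p ≤ n)]
    have h1 : ∑ p ∈ P.filter (fun p => p ≤ n), 1 / q4 p ^ 3 ≤ 4 * q4 n := by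
      refine le_trans (Finset.sum_le_sum_of_subset_of_nonneg ?_ fun i _ _ => ?_) (sum_q4 n)
      · intro p hp
        rw [Finset.mem_filter] at hp
        rw [Finset.mem_Icc]
        exact ⟨hP p hp.1, hp.2⟩
      · have := q4_nonneg i
        positivity
    have hb := q4_pos h0
    have h4 : ∑ p ∈ P.filter (fun p => ¬ p ≤ n), 1 / q4 p ^ 3 ≤ q4 n := by
      calc ∑ p ∈ P.filter (fun p => ¬ p ≤ n), 1 / q4 p ^ 3 ≤
          ∑ p ∈ P.filter (fun p => ¬ p ≤ n), 1 / q4 n ^ 3 := by
            refine Finset.sum_le_sum fun p hp => ?_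
            rw [Finset.mem_filter] at hp
            have : q4 n ≤ q4 p := q4_mono (by omega)
            gcongr
        _ = ((P.filter (fun p => ¬ p ≤ n)).card : ℝ) * (1 / q4 n ^ 3) := by
            rw [Finset.sum_const, nsmul_eq_mul]
        _ ≤ (n : ℝ) * (1 / q4 n ^ 3) := by
            have : ((P.filter (fun p => ¬ p ≤ n)).card : ℝ) ≤ n := by
              exact_mod_cast Finset.card_filter_le _ _
            gcongr
        _ = q4 n := by
            rw [← q4_pow n]
            field_simp
    linarith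

end Pool.Agent.N534.XH
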